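import Pool.Agent.Helper60.GPrinDefs
import Pool.Agent.Helper60.GPrinRoc

/-!
Definitions are in `Pool.Agent.Helper60.GPrinDefs`.  The proof is in `Pool.Agent.Helper60.GPrinRoc`
and the files it imports.
-/

namespace Pool.Agent.Results.MP_773080_lc.RocNotGPrincipal

open Pool.Agent.Helper60.GPrin

/-- The family of (restricted) one-counter languages is not G-principal: there is no one-counter
language `L` such that every one-counter language is obtained from `L` by inverse a-gsm mappings. -/
theorem result : ¬ GPrincipal Roc :=
  not_GPrincipal_Roc

end Pool.Agent.Results.MP_773080_lc.RocNotGPrincipal
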